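import Pool.Agent.K1H50.PV.All

set_option autoImplicit false

/-!
# Numbers with at most five prime factors just above almost all squares

We count the integers `m` in `(n ^ 2, n ^ 2 + T]` that have at most five prime factors (with
multiplicity), all of them at least `n ^ (1/10)`.  There is `c > 0` such that for every `ε > 0` and `B`
there is `K` with the following property: in every window `(Z, Z + Y]`, `Y ≥ X ^ (7/8)`, `Z + Y ≤ 2 X`, and
for every length `K log X ≤ T ≤ (log X) ^ B`, all but `ε Y` of the integers `n` have at least `c T / log X`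
such `m` in `(n ^ 2, n ^ 2 + T]`.  In particular, for almost all `n` the interval
`(n ^ 2, n ^ 2 + (log n / log 2) ^ 2]` of the question contains at least `c log n` integers with at most
five prime factors.

Proof.  Let `S(n)` be the sum over `h ≤ T` of the lower bound weights of the weighted linear sieve at
`n ^ 2 + h`, for the primes between `X ^ e` and `X ^ υ`, times the indicator function of the numbers without
prime factor below `X ^ e`; the level is `X ^ (43/100)`.  The first two moments of `S(n)` are computed with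
the fundamental lemma, two shifts at a time (the product of the levels is below the length of the window);
the main terms of the weights depend on `h` only through the densities at the large primes, which are
regular by the theorem of Siegel and Walfisz, so they are nearly the same for all `h`; the factors of the
small primes are those of the law of large numbers for rough numbers (singular series of
`(n ^ 2 + h) (n ^ 2 + h')` on average).  So the variance of `S(n)` is small compared with the square of the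
mean.

Team project PV: helper50 (design, assembly), helper60 (continuity of the sieve recursion), helper56
(comparison of the main terms), helpers 78 and 98 (fundamental lemma with prescribed conditions), helper37 (two
shifts), helper63 (first moment), helper47 (second moment).
-/

namespace Pool.Agent.Results.MP_73869e_nt.FivePrimeFactors

open Finset Filter

/-- `m` has at most five prime factors (with multiplicity), all of them at least `n ^ (1 / 10)` -/
def P5 (n m : ℕ) : Prop :=
  m.primeFactorsList.length ≤ 5 ∧ ∀ p : ℕ, p.Prime → p ∣ m → (n : ℝ) ^ (1 / 10 : ℝ) ≤ (p : ℝ)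

open Classical in
/-- the number of the `m` with `n ^ 2 < m ≤ n ^ 2 + T` that have at most five prime factors, all of them at
least `n ^ (1 / 10)` -/
noncomputable def N (n T : ℕ) : ℕ := ((Ioc (n ^ 2) (n ^ 2 + T)).filter (fun m => P5 n m)).card

open Classical in
/-- **Five prime factors, for almost all `n`.** -/
theorem result : ∃ c : ℝ, 0 < c ∧
    -- almost all `n` in every window, all lengths
    (∀ ε B : ℝ, 0 < ε → ∃ (K : ℝ) (X0 : ℕ), ∀ X : ℕ, X0 ≤ X → ∀ Z Y T : ℕ,
      (X : ℝ) ^ (7 / 8 : ℝ) ≤ Y → Z + Y ≤ 2 * X → K * Real.log X ≤ T → (T : ℝ) ≤ Real.log X ^ B →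
      (((Ioc Z (Z + Y)).filter (fun n => (N n T : ℝ) < c * T / Real.log X)).card : ℝ) ≤ ε * Y) ∧
    -- the lengths of the question
    ∀ ε : ℝ, 0 < ε → ∃ X0 : ℕ, ∀ X : ℕ, X0 ≤ X → ∀ Y : ℕ, (X : ℝ) ^ (7 / 8 : ℝ) ≤ Y → Y ≤ X →
      (((Ioc X (X + Y)).filter
        (fun n : ℕ => (N n ⌊(Real.logb 2 n) ^ 2⌋₊ : ℝ) < c * Real.log n)).card : ℝ) ≤ ε * Y := by
  obtain ⟨c, hc, H⟩ := Pool.Agent.K1H50.PV.fin5' 
  have hN : ∀ n T : ℕ, Pool.Agent.K1H50.PV.N5 n T = N n T := by
    intro n T
    unfold Pool.Agent.K1H50.PV.N5 N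
    congr 1
  have hlog : Tendsto (fun X : ℕ => Real.log X) atTop atTop :=
    Real.tendsto_log_atTop.comp tendsto_natCast_atTop_atTop
  have part1 : ∀ ε B : ℝ, 0 < ε → ∃ (K : ℝ) (X0 : ℕ), ∀ X : ℕ, X0 ≤ X → ∀ Z Y T : ℕ,
      (X : ℝ) ^ (7 / 8 : ℝ) ≤ Y → Z + Y ≤ 2 * X → K * Real.log X ≤ T → (T : ℝ) ≤ Real.log X ^ B →
      (((Ioc Z (Z + Y)).filter (fun n => (N n T : ℝ) < c * T / Real.log X)).card : ℝ) ≤ ε * Y := by
    intro ε B hε
    obtain ⟨K, hK, X1, h⟩ := H ε hε ⌈B⌉₊
    obtain ⟨X2, h2⟩ := eventually_atTop.1 (hlog.eventually_ge_atTop 1)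
    refine ⟨K, max X1 X2, ?_⟩
    intro X hX Z Y T hY hZY hT hTB
    have h3 := h2 X ((le_max_right _ _).trans hX)
    have h4 : (T : ℝ) ≤ Real.log X ^ ⌈B⌉₊ := by
      refine hTB.trans ?_
      rw [← Real.rpow_natCast]
      exact Real.rpow_le_rpow_of_exponent_le h3 (Nat.le_ceil B)
    have h5 := h X ((le_max_left _ _).trans hX) Z Y T hY hZY hT h4
    simp only [hN] at h5
    exact h5
  refine ⟨c / 2, by positivity, ?_, ?_⟩
  · intro ε B hε
    obtain ⟨K, X0, h⟩ := part1 ε B hε
    refine ⟨K, max X0 3, ?_⟩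
    intro X hX Z Y T hY hZY hT hTB
    have hXr : (3 : ℝ) ≤ X := by exact_mod_cast (le_max_right _ _).trans hX
    have hl : 0 < Real.log X := Real.log_pos (by linarith)
    refine le_trans ?_ (h X ((le_max_left _ _).trans hX) Z Y T hY hZY hT hTB)
    apply Nat.cast_le.2
    apply card_le_card
    intro n hn
    rw [mem_filter] at hn ⊢
    refine ⟨hn.1, hn.2.trans_le ?_⟩
    apply div_le_div_of_nonneg_right _ hl.le
    have : (0 : ℝ) ≤ T := Nat.cast_nonneg _
    nlinarith
  intro ε hε
  obtain ⟨K, X1, h⟩ := part1 ε 3 hε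
  have hl2 : 0.69 < Real.log 2 ∧ Real.log 2 < 0.7 :=
    ⟨by linarith [Real.log_two_gt_d9], by linarith [Real.log_two_lt_d9]⟩
  obtain ⟨X2, h2⟩ := eventually_atTop.1 ((hlog.eventually_ge_atTop (max K 0 + 10)).and
    (eventually_ge_atTop 3))
  refine ⟨max X1 X2, ?_⟩
  intro X hX Y hY hYX
  obtain ⟨e1, e2⟩ := h2 X ((le_max_right _ _).trans hX)
  have hXr : (3 : ℝ) ≤ X := by exact_mod_cast e2
  set l := Real.log X with hl
  have hK0 : 0 ≤ max K 0 := le_max_right _ _
  have hKK : K ≤ max K 0 := le_max_left _ _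
  have hl10 : 10 ≤ l := by linarith
  have hl0 : 0 < l := by linarith
  have hb : Real.logb 2 X = l / Real.log 2 := rfl
  obtain ⟨T, hT⟩ : ∃ T : ℕ, T = ⌊(Real.logb 2 X) ^ 2⌋₊ := ⟨_, rfl⟩
  have hbl : l ≤ Real.logb 2 X := by
    rw [hb, le_div_iff₀ (by linarith)]
    nlinarith
  have hbu : Real.logb 2 X ≤ 2 * l := by
    rw [hb, div_le_iff₀ (by linarith)]
    nlinarith
  have hTle : (T : ℝ) ≤ (Real.logb 2 X) ^ 2 := by rw [hT]; exact Nat.floor_le (by positivity)
  have hTgt : (Real.logb 2 X) ^ 2 < T + 1 := by rw [hT]; exact Nat.lt_floor_add_one _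
  have hT1 : l ^ 2 - 1 ≤ T := by
    have : l ^ 2 ≤ (Real.logb 2 X) ^ 2 := pow_le_pow_left₀ hl0.le hbl 2
    linarith
  have hT2 : (T : ℝ) ≤ 4 * l ^ 2 := by
    have : (Real.logb 2 X) ^ 2 ≤ (2 * l) ^ 2 := pow_le_pow_left₀ (by linarith) hbu 2
    nlinarith
  have hT3 : K * l ≤ T := by nlinarith
  have hT4 : (T : ℝ) ≤ l ^ (3 : ℝ) := by
    have : l ^ (3 : ℝ) = l ^ 3 := by exact_mod_cast Real.rpow_natCast l 3
    rw [this]
    nlinarith
  have h3 := h X ((le_max_left _ _).trans hX) X Y T hY (by omega) hT3 hT4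
  refine le_trans ?_ h3
  apply Nat.cast_le.2
  apply card_le_card
  intro n hn
  rw [mem_filter, mem_Ioc] at hn
  rw [mem_filter, mem_Ioc]
  refine ⟨hn.1, ?_⟩
  obtain ⟨⟨hn1, hn2⟩, hn3⟩ := hn
  have hnX : (X : ℝ) ≤ n := by exact_mod_cast hn1.le
  have hn2X : (n : ℝ) ≤ 2 * X := by exact_mod_cast (by omega : n ≤ 2 * X)
  have hlen : T ≤ ⌊(Real.logb 2 n) ^ 2⌋₊ := by
    rw [hT]
    apply Nat.floor_le_floor
    apply pow_le_pow_left₀ (by linarith)
    exact Real.logb_le_logb_of_le (by norm_num) (by linarith) hnX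
  have hNN : N n T ≤ N n ⌊(Real.logb 2 n) ^ 2⌋₊ := by
    unfold N
    apply card_le_card
    apply filter_subset_filter
    intro m hm
    rw [mem_Ioc] at hm ⊢
    omega
  have hNN' : (N n T : ℝ) ≤ N n ⌊(Real.logb 2 n) ^ 2⌋₊ := by exact_mod_cast hNN
  refine (hNN'.trans_lt hn3).trans_le ?_
  have hln : Real.log n ≤ l + 1 := by
    have h6 := Real.log_le_log (by linarith) hn2X
    rw [Real.log_mul (by norm_num) (by linarith)] at h6
    linarith
  rw [le_div_iff₀ hl0]
  have h7 : 1 / 2 * Real.log n * l ≤ T := by nlinarith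
  calc c / 2 * Real.log n * l = c * (1 / 2 * Real.log n * l) := by ring
    _ ≤ c * T := mul_le_mul_of_nonneg_left h7 hc.le

end Pool.Agent.Results.MP_73869e_nt.FivePrimeFactors
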