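import Pool.Agent.K1H50.SQ3.U4

set_option autoImplicit false

/-!
# Numbers with at most three prime factors just above squares, in every window

We count the integers `m` in `(n ^ 2, n ^ 2 + T]` that have at most three prime factors (with
multiplicity), all of them at least `n ^ (9/50)`.  The expected order of magnitude of their number is
`T / log n`.

For all `x > 0` and `B` there is `c > 0` such that in EVERY window `(Z, Z + Y]`, `Y ≥ X ^ (3/4)`,
`Z + Y ≤ 2 X`, and for every length `x log X ≤ T ≤ (log X) ^ B`, a proportion of at least `c` of the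
integers `n` has at least `c T / log X` such `m` in `(n ^ 2, n ^ 2 + T]`; `x` may be arbitrarily small, that
is, the interval may be much shorter than the average distance between such numbers.  In particular the
intervals `(n ^ 2, n ^ 2 + (log n / log 2) ^ 2]` of the question contain at least `c log n` numbers with at
most three prime factors for a positive proportion of the `n` in every window of length `X ^ (3/4)`.

Proof.  For most `h ≤ T` the singular series of `n ^ 2 + h` is not small (mean square of the factors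
`L(1, χ) ^ (-1)` over the `h`, from the law of large numbers for rough numbers).  For these `h` the weighted
linear sieve, with universal weights and uniformly in `h` by the theorem of Siegel and Walfisz, gives the
expected number of `n` in the window with `n ^ 2 + h` a product of at most three primes.  The second moment
is bounded by the one of the rough numbers `n ^ 2 + h`.
-/

namespace Pool.Agent.Results.MP_73869e_nt.ThreePrimeFactors

open Finset Filter

/-- `m` has at most three prime factors (with multiplicity), all of them at least `n ^ (9 / 50)` -/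
def P3 (n m : ℕ) : Prop :=
  m.primeFactorsList.length ≤ 3 ∧ ∀ p : ℕ, p.Prime → p ∣ m → (n : ℝ) ^ (9 / 50 : ℝ) ≤ (p : ℝ)

open Classical in
/-- the number of the `m` with `n ^ 2 < m ≤ n ^ 2 + T` that have at most three prime factors, all of them
at least `n ^ (9 / 50)` -/
noncomputable def N (n T : ℕ) : ℕ := ((Ioc (n ^ 2) (n ^ 2 + T)).filter (fun m => P3 n m)).card

open Classical in
/-- **Three prime factors, in every window.** -/
theorem result :
    -- every window, all lengths
    (∀ x B : ℝ, 0 < x → ∃ c : ℝ, 0 < c ∧ ∃ X0 : ℕ, ∀ X : ℕ, X0 ≤ X → ∀ Z Y T : ℕ,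
      (X : ℝ) ^ (3 / 4 : ℝ) ≤ Y → Z + Y ≤ 2 * X → x * Real.log X ≤ T → (T : ℝ) ≤ Real.log X ^ B →
      c * Y ≤ (((Ioc Z (Z + Y)).filter (fun n => c * T / Real.log X ≤ N n T)).card : ℝ)) ∧
    -- the lengths of the question
    ∃ c : ℝ, 0 < c ∧ ∃ X0 : ℕ, ∀ X : ℕ, X0 ≤ X → ∀ Y : ℕ, (X : ℝ) ^ (3 / 4 : ℝ) ≤ Y → Y ≤ X →
      c * Y ≤ (((Ioc X (X + Y)).filter
        (fun n : ℕ => c * Real.log n ≤ N n ⌊(Real.logb 2 n) ^ 2⌋₊)).card : ℝ) := by
  have hN : ∀ n T : ℕ, Pool.Agent.K1H50.SQ3.N3 n T = N n T := by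
    intro n T
    unfold Pool.Agent.K1H50.SQ3.N3 N
    congr 1
  have hlog : Tendsto (fun X : ℕ => Real.log X) atTop atTop :=
    Real.tendsto_log_atTop.comp tendsto_natCast_atTop_atTop
  have part1 : ∀ x B : ℝ, 0 < x → ∃ c : ℝ, 0 < c ∧ ∃ X0 : ℕ, ∀ X : ℕ, X0 ≤ X → ∀ Z Y T : ℕ,
      (X : ℝ) ^ (3 / 4 : ℝ) ≤ Y → Z + Y ≤ 2 * X → x * Real.log X ≤ T → (T : ℝ) ≤ Real.log X ^ B →
      c * Y ≤ (((Ioc Z (Z + Y)).filter (fun n => c * T / Real.log X ≤ N n T)).card : ℝ) := by
    intro x B hx
    obtain ⟨c, hc, X1, h⟩ := Pool.Agent.K1H50.SQ3.allWin x ⌈B⌉₊ hx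
    obtain ⟨X2, h2⟩ := eventually_atTop.1 (hlog.eventually_ge_atTop 1)
    refine ⟨c, hc, max X1 X2, ?_⟩
    intro X hX Z Y T hY hZY hT hTB
    have h3 := h2 X ((le_max_right _ _).trans hX)
    have h4 : (T : ℝ) ≤ Real.log X ^ ⌈B⌉₊ := by
      refine hTB.trans ?_
      rw [← Real.rpow_natCast]
      exact Real.rpow_le_rpow_of_exponent_le h3 (Nat.le_ceil B)
    have h5 := h X ((le_max_left _ _).trans hX) Z Y T hY hZY hT h4
    simp only [hN] at h5
    exact h5
  refine ⟨part1, ?_⟩
  obtain ⟨c, hc, X1, h⟩ := part1 1 3 one_pos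
  have hl2 : 0.69 < Real.log 2 ∧ Real.log 2 < 0.7 :=
    ⟨by linarith [Real.log_two_gt_d9], by linarith [Real.log_two_lt_d9]⟩
  obtain ⟨X2, h2⟩ := eventually_atTop.1 ((hlog.eventually_ge_atTop 10).and (eventually_ge_atTop 3))
  refine ⟨c / 2, by positivity, max X1 X2, ?_⟩
  intro X hX Y hY hYX
  obtain ⟨e1, e2⟩ := h2 X ((le_max_right _ _).trans hX)
  have hXr : (3 : ℝ) ≤ X := by exact_mod_cast e2
  set l := Real.log X with hl
  have hl0 : 0 < l := by linarith
  have hb : Real.logb 2 X = l / Real.log 2 := rfl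
  obtain ⟨T, hT⟩ : ∃ T : ℕ, T = ⌊(Real.logb 2 X) ^ 2⌋₊ := ⟨_, rfl⟩
  have hbl : l ≤ Real.logb 2 X := by
    rw [hb, le_div_iff₀ (by linarith)]
    nlinarith
  have hbu : Real.logb 2 X ≤ 2 * l := by
    rw [hb, div_le_iff₀ (by linarith)]
    nlinarith
  have hTle : (T : ℝ) ≤ (Real.logb 2 X) ^ 2 := by rw [hT]; exact Nat.floor_le (by positivity)
  have hTgt : (Real.logb 2 X) ^ 2 < T + 1 := by rw [hT]; exact Nat.lt_floor_add_one _
  have hT1 : l ^ 2 - 1 ≤ T := by
    have : l ^ 2 ≤ (Real.logb 2 X) ^ 2 := pow_le_pow_left₀ hl0.le hbl 2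
    linarith
  have hT2 : (T : ℝ) ≤ 4 * l ^ 2 := by
    have : (Real.logb 2 X) ^ 2 ≤ (2 * l) ^ 2 := pow_le_pow_left₀ (by linarith) hbu 2
    nlinarith
  have hT3 : 1 * l ≤ T := by nlinarith
  have hT4 : (T : ℝ) ≤ l ^ (3 : ℝ) := by
    have : l ^ (3 : ℝ) = l ^ 3 := by exact_mod_cast Real.rpow_natCast l 3
    rw [this]
    nlinarith
  have h3 := h X ((le_max_left _ _).trans hX) X Y T hY (by omega) hT3 hT4
  have hY0 : (0 : ℝ) ≤ Y := Nat.cast_nonneg _
  calc c / 2 * (Y : ℝ) ≤ c * Y := mul_le_mul_of_nonneg_right (by linarith) hY0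
    _ ≤ _ := h3
    _ ≤ _ := by
        apply Nat.cast_le.2
        apply card_le_card
        intro n hn
        rw [mem_filter, mem_Ioc] at hn
        rw [mem_filter, mem_Ioc]
        refine ⟨hn.1, ?_⟩
        obtain ⟨⟨hn1, hn2⟩, hn3⟩ := hn
        have hnX : (X : ℝ) ≤ n := by exact_mod_cast hn1.le
        have hn2X : (n : ℝ) ≤ 2 * X := by exact_mod_cast (by omega : n ≤ 2 * X)
        have hlen : T ≤ ⌊(Real.logb 2 n) ^ 2⌋₊ := by
          rw [hT]
          apply Nat.floor_le_floor
          apply pow_le_pow_left₀ (by linarith)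
          exact Real.logb_le_logb_of_le (by norm_num) (by linarith) hnX
        have hNN : N n T ≤ N n ⌊(Real.logb 2 n) ^ 2⌋₊ := by
          unfold N
          apply card_le_card
          apply filter_subset_filter
          intro m hm
          rw [mem_Ioc] at hm ⊢
          omega
        have hNN' : (N n T : ℝ) ≤ N n ⌊(Real.logb 2 n) ^ 2⌋₊ := by exact_mod_cast hNN
        refine le_trans ?_ (hn3.trans hNN')
        have hln : Real.log n ≤ l + 1 := by
          have h6 := Real.log_le_log (by linarith) hn2X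
          rw [Real.log_mul (by norm_num) (by linarith)] at h6
          linarith
        rw [le_div_iff₀ hl0]
        have h7 : 1 / 2 * Real.log n * l ≤ T := by nlinarith
        calc c / 2 * Real.log n * l = c * (1 / 2 * Real.log n * l) := by ring
          _ ≤ c * T := mul_le_mul_of_nonneg_left h7 hc.le

end Pool.Agent.Results.MP_73869e_nt.ThreePrimeFactors
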