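import Pool.Agent.K1H73.SQB.Main3
import Pool.Agent.K1H73.SQB.Tr3

set_option autoImplicit false

/-!
# The almost primes just above consecutive squares: independence, exact positions, residue classes

An integer is good (for `X`) if it has at most `2 r` prime factors, all larger than `X ^ (1 / r)`; `V` is the
product of `1 - 1 / p` over the primes `p ≤ X ^ (1 / r)`.  Fix

* a finite set `P` of pairs `(s, h)`, `h ≥ 1`, such that no prime divides the product of the
  `(n + s) ^ 2 + h`, `(s, h) ∈ P`, for all `n`, and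
* finitely many disjoint boxes: the box `i` consists of the integers `(n + s i) ^ 2 + h`, `S i < h ≤ U i`,
  `(s i, h)` not in `P`, that are congruent to `a i` modulo `q`, where `q` is squarefree and `a i` prime to `q`.

Let `n` run over any interval of length at least `X ^ θ` below `2 X`.  The number of the `n` for which all
`(n + s) ^ 2 + h`, `(s, h) ∈ P`, are good is asymptotic to `Y V_P`, `V_P` the product of the local densities up
to `X ^ (1 / r)`, and for these `n` the numbers of good integers in the boxes are jointly distributed like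
independent Poisson variables with means `(U i - S i) V / φ(q)`, up to `ε`, uniformly in the boxes with
`U i V ≤ x0`.  For example:

* (`P` empty) above consecutive squares `n ^ 2, (n + 1) ^ 2, ..., (n + j) ^ 2` the good integers form independent
  Poisson processes on the scale `1 / V` (about `log X / r`), with independent uniform residues modulo `q`;
  e.g. the intervals `((n + i) ^ 2, (n + i) ^ 2 + x / V]`, `i < j`, are all free of good integers for the
  proportion `e ^ (- j x)` of the `n`;
* (one box, `q = 1`, count `0`) the number of the `n` for which the good integers in `(n ^ 2, n ^ 2 + T]` are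
  exactly the `n ^ 2 + h`, `(0, h) ∈ P`, is `Y V_P e ^ (- T V) (1 + O(ε))`: exact positions;
* (`P = {(0, 1)}`) the good integers above the good integers of the form `n ^ 2 + 1` form a Poisson process.

Proof.  The joint binomial moments are averages of the singular series of products of the polynomials
`(n + s) ^ 2 + h` over boxes of sets of `h`.  New compared to the starting library (one square, one block,
nothing prescribed): collisions of different squares, measured by the resultant
`(h - h') ^ 2 + 2 (s - s') ^ 2 (h + h') + (s - s') ^ 4`, are rare on average; errors relative to the small density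
`V_P`; congruence conditions; the joint law from the joint moments (Bonferroni in several variables).
Written with helpers 31, 36, 7, 1, 99, 65, 89, 68, 96 (part 1), 97, 25, 4, 80, 11, 29, 66, 67, 74 (part 2), 13, 24, 75,
83 (part 3).
-/

namespace Pool.Agent.Results.MP_73869e_nt.ConsecutiveSquares

open Finset

/-- `m` has at most `2 r` prime factors (with multiplicity), all larger than `X ^ (1 / r)` -/
def Good (r X m : ℕ) : Prop :=
  m.primeFactorsList.length ≤ 2 * r ∧ ∀ p : ℕ, p.Prime → p ∣ m → (X : ℝ) ^ (1 / (r : ℝ)) < (p : ℝ)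

/-- the integer `(n + s) ^ 2 + h` -/
def val (n : ℕ) (z : ℕ × ℕ) : ℕ := (n + z.1) ^ 2 + z.2

open Classical in
/-- the number of the `h` with `S < h ≤ U`, `(s, h)` not in `P`, for which `(n + s) ^ 2 + h` is good and congruent
to `a` modulo `q` -/
noncomputable def N (r X : ℕ) (P : Finset (ℕ × ℕ)) (q a s S U n : ℕ) : ℕ :=
  ((Ioc S U).filter (fun h => (s, h) ∉ P ∧ Good r X ((n + s) ^ 2 + h) ∧ ((n + s) ^ 2 + h) % q = a % q)).card

/-- the product of `1 - 1 / p` over the primes `p ≤ X ^ (1 / r)` -/
noncomputable def V (r X : ℕ) : ℝ :=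
  ∏ p ∈ (Icc 1 ⌊(X : ℝ) ^ (1 / (r : ℝ))⌋₊).filter Nat.Prime, (1 - 1 / (p : ℝ))

/-- the number of the classes `m` modulo `p` for which `p` divides some `(m + s) ^ 2 + h`, `(s, h) ∈ P` -/
def bad (P : Finset (ℕ × ℕ)) (p : ℕ) : ℕ :=
  ((range p).filter (fun m => ∃ z ∈ P, p ∣ (m + z.1) ^ 2 + z.2)).card

/-- the density of the `n` for which all `(n + s) ^ 2 + h`, `(s, h) ∈ P`, are good: the product of
`1 - bad P p / p` over the primes `p ≤ X ^ (1 / r)` -/
noncomputable def VP (r X : ℕ) (P : Finset (ℕ × ℕ)) : ℝ :=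
  ∏ p ∈ (Icc 1 ⌊(X : ℝ) ^ (1 / (r : ℝ))⌋₊).filter Nat.Prime, (1 - (bad P p : ℝ) / p)

/-- the mean number of good integers in a box -/
noncomputable def mean (r X q S U : ℕ) : ℝ := ((U - S : ℕ) : ℝ) * V r X / (Nat.totient q : ℝ)

/-- the probability that the Poisson variable with mean `x` is equal to `c` -/
noncomputable def po (x : ℝ) (c : ℕ) : ℝ := Real.exp (-x) * x ^ c / (c.factorial : ℝ)

open Classical in
/-- **The almost primes just above consecutive squares.** -/
theorem result (k q : ℕ) (a s : Fin k → ℕ) (P : Finset (ℕ × ℕ)) (hq : Squarefree q)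
    (ha : ∀ i, (a i).Coprime q) (hP : ∀ p : ℕ, p.Prime → ∃ m : ℕ, ∀ z ∈ P, ¬ p ∣ val m z)
    (hP1 : ∀ z ∈ P, 1 ≤ z.2) (θ x0 ε : ℝ) (hθ : 0 < θ) (hε : 0 < ε) :
    ∃ r0 : ℕ, ∀ r : ℕ, r0 ≤ r → ∃ X0 : ℕ, ∀ X : ℕ, X0 ≤ X → ∀ Z Y : ℕ, (X : ℝ) ^ θ ≤ Y → Z + Y ≤ 2 * X →
    ∀ S U : Fin k → ℕ, (∀ i, U i * V r X ≤ x0) →
    (∀ i j, i ≠ j → s i ≠ s j ∨ a i % q ≠ a j % q ∨ Disjoint (Ioc (S i) (U i)) (Ioc (S j) (U j))) →
    ∀ A : Finset (Fin k → ℕ),
    |(((Ioc Z (Z + Y)).filter (fun n => (∀ z ∈ P, Good r X (val n z)) ∧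
        (fun i => N r X P q (a i) (s i) (S i) (U i) n) ∈ A)).card : ℝ) -
      Y * VP r X P * ∑ c ∈ A, ∏ i, po (mean r X q (S i) (U i)) (c i)| ≤ ε * (Y * VP r X P) := by
  have hP2 : ∀ p : ℕ, p.Prime → Pool.Agent.K1H73.SQB.r2 P p < p := by
    intro p hp
    obtain ⟨m, hm⟩ := hP p hp
    unfold Pool.Agent.K1H73.SQB.r2
    have h1 : (range p).filter (fun r => ∃ z ∈ P, p ∣ (r + z.1) ^ 2 + z.2) ⊂ range p := by
      rw [Finset.ssubset_iff_of_subset (filter_subset _ _)]
      refine ⟨m % p, mem_range.2 (Nat.mod_lt _ hp.pos), ?_⟩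
      rw [mem_filter]
      rintro ⟨-, z, hz, hd⟩
      apply hm z hz
      unfold val
      have h2 : (m % p + z.1) ^ 2 + z.2 ≡ (m + z.1) ^ 2 + z.2 [MOD p] :=
        Nat.ModEq.add_right _ (((Nat.mod_modEq m p).add_right _).pow 2)
      exact (h2.dvd_iff (dvd_refl p)).1 hd
    have h3 := Finset.card_lt_card h1
    rwa [card_range] at h3
  obtain ⟨r0, _, h⟩ := Pool.Agent.K1H73.SQB.lawG3 Pool.Agent.K1H73.SQB.a_LAWJ3 k q a s P hq ha hP2 hP1
    θ x0 ε hθ hε
  exact ⟨r0, h⟩

end Pool.Agent.Results.MP_73869e_nt.ConsecutiveSquares
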