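import Pool.Agent.K1H50.AL.Fin

set_option autoImplicit false

/-!
# Three and five prime factors just above the squares of `⌊b_n α ^ (a_n)⌋`, for almost all `α`

Let `a_n, b_n ≥ 1` be real numbers such that `s_n = a_n + log b_n` is nondecreasing and tends to infinity and
`s_{n+1} / s_n` is bounded, and let `m_n = ⌊b_n α ^ (a_n)⌋`.  For almost all `α > 1`:

* for all `n` outside a set of density zero with respect to the weights `log (s_{n+1} / s_n)`, the interval
  `(m ^ 2, m ^ 2 + (log m / log 2) ^ 2]` of the question, `m = m_n`, contains at least `c log m` integers with at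
  most FIVE prime factors, all of them at least `m ^ (1/10)`;
* for all `n` in a set of positive lower density it contains at least `c log m` integers with at most THREE
  prime factors, all of them at least `m ^ (9/50)`.

The same holds for other lengths between a constant times `log m` and a power of `log m`.  For
`m_n = ⌊α ^ (n + 1)⌋` the density is the logarithmic density, for `a_n = 2 ^ n`, `b_n = 1` the natural density.

Proof.  The exceptional numbers have small relative density (and the numbers with many integers with at most three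
prime factors have relative density bounded below) in EVERY window of length `R ^ (7/8)` (`FivePrimeFactors`,
`ThreePrimeFactors`); as in `LawAlongAlmostAll` the indicator functions along the sequence, as functions of
`log α`, are sums of averages over very short intervals and of functions which are almost orthogonal for
indices `n, n'` with `s_n' > C s_n`.
-/

namespace Pool.Agent.Results.MP_73869e_nt.FewFactorsAlongPowers

open Filter MeasureTheory

/-- `k` has at most `r` prime factors (with multiplicity), all of them at least `m ^ κ` -/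
def Few (r : ℕ) (κ : ℝ) (m k : ℕ) : Prop :=
  k.primeFactorsList.length ≤ r ∧ ∀ p : ℕ, p.Prime → p ∣ k → (m : ℝ) ^ κ ≤ (p : ℝ)

open Classical in
/-- the number of the `k` with `m ^ 2 < k ≤ m ^ 2 + T` that have at most `r` prime factors, all of them at
least `m ^ κ` -/
noncomputable def N (r : ℕ) (κ : ℝ) (m T : ℕ) : ℕ :=
  ((Finset.Ioc (m ^ 2) (m ^ 2 + T)).filter (fun k => Few r κ m k)).card

/-- the conditions on the sequences, with `s_n = a_n + log b_n` -/
structure Admissible (a b : ℕ → ℝ) : Prop where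
  one_le_left : ∀ n, 1 ≤ a n
  one_le_right : ∀ n, 1 ≤ b n
  mono : Monotone (fun n => a n + Real.log (b n))
  tendsto : Tendsto (fun n => a n + Real.log (b n)) atTop atTop
  bounded : ∃ C : ℝ, ∀ n, a (n + 1) + Real.log (b (n + 1)) ≤ C * (a n + Real.log (b n))

/-- the weight `log (s_{n+1} / s_n)`, where `s_n = a_n + log b_n` -/
noncomputable def w (a b : ℕ → ℝ) (n : ℕ) : ℝ :=
  Real.log (a (n + 1) + Real.log (b (n + 1))) - Real.log (a n + Real.log (b n))

open Classical in
/-- the numbers `n` for which `m = ⌊b_n α ^ (a_n)⌋` has the property `P` have upper density at most `ε`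
(in the strong sense: relative weight at most `ε` in all long initial segments) -/
def Rare (a b : ℕ → ℝ) (α ε : ℝ) (P : ℕ → Prop) : Prop := ∀ᶠ M in atTop,
  (∑ n ∈ Finset.range M, if P ⌊b n * α ^ (a n)⌋₊ then w a b n else 0) ≤ ε * ∑ n ∈ Finset.range M, w a b n

open Classical in
/-- the numbers `n` for which `m = ⌊b_n α ^ (a_n)⌋` has the property `P` have relative weight at least `δ` in all
long initial segments -/
def Frequent (a b : ℕ → ℝ) (α δ : ℝ) (P : ℕ → Prop) : Prop := ∀ᶠ M in atTop,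
  δ * ∑ n ∈ Finset.range M, w a b n ≤ ∑ n ∈ Finset.range M, if P ⌊b n * α ^ (a n)⌋₊ then w a b n else 0

/-- lengths `L j` between `K j` and `j ^ B` for all large `j` -/
def Lengths (K B : ℝ) (L : ℕ → ℕ) : Prop := ∀ᶠ j : ℕ in atTop, K * j ≤ L j ∧ (L j : ℝ) ≤ (j : ℝ) ^ B

open Pool.Agent.K1H50.AL

lemma N5 (m T : ℕ) : FivePrimeFactors.N m T = N 5 (1 / 10) m T := by
  unfold FivePrimeFactors.N N
  congr 1

lemma N3 (m T : ℕ) : ThreePrimeFactors.N m T = N 3 (9 / 50) m T := by
  unfold ThreePrimeFactors.N N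
  congr 1

lemma N_mono (r : ℕ) (κ : ℝ) (m : ℕ) {T T' : ℕ} (h : T ≤ T') : N r κ m T ≤ N r κ m T' := by
  classical
  unfold N
  apply Finset.card_le_card
  intro k hk
  simp only [Finset.mem_filter, Finset.mem_Ioc] at hk ⊢
  exact ⟨by omega, hk.2⟩

/-- the length of the question -/
lemma len_bound {m : ℕ} (hm : 1 ≤ m) (h3 : 3 ≤ Nat.log 2 m) :
    (Nat.log 2 m) ^ 2 ≤ ⌊(Real.logb 2 m) ^ 2⌋₊ ∧ Real.log m ≤ Nat.log 2 m := by
  obtain ⟨j, hj⟩ : ∃ j, j = Nat.log 2 m := ⟨_, rfl⟩
  have h1 : 2 ^ j ≤ m := by rw [hj]; exact Nat.pow_log_le_self 2 (by omega)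
  have h2 : m < 2 ^ (j + 1) := by rw [hj]; exact Nat.lt_pow_succ_log_self (by norm_num) m
  have hm0 : (0:ℝ) < m := by exact_mod_cast (by omega : 0 < m)
  rw [← hj] at h3 ⊢
  have hj0 : (3:ℝ) ≤ j := by exact_mod_cast h3
  constructor
  · have h4 : (j : ℝ) ≤ Real.logb 2 m := by
      rw [Real.le_logb_iff_rpow_le (by norm_num) hm0, Real.rpow_natCast]
      exact_mod_cast h1
    apply Nat.le_floor
    push_cast
    exact pow_le_pow_left₀ (by linarith) h4 2
  · have h5 : Real.log m ≤ Real.log ((2:ℝ) ^ (j + 1)) := by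
      apply Real.log_le_log hm0
      exact_mod_cast h2.le
    rw [Real.log_pow] at h5
    push_cast at h5
    have := Real.log_two_lt_d9
    nlinarith

lemma sq_lengths (K B : ℝ) (hB : 2 ≤ B) : Lengths K B (fun j => j ^ 2) := by
  have ev : ∀ᶠ j : ℕ in atTop, K ≤ (j : ℝ) := tendsto_natCast_atTop_atTop.eventually_ge_atTop _
  filter_upwards [ev, eventually_ge_atTop 1] with j hj hj1
  have hjr : (1 : ℝ) ≤ j := by exact_mod_cast hj1
  push_cast
  constructor
  · nlinarith
  · calc (j : ℝ) ^ 2 = (j : ℝ) ^ (2 : ℝ) := by exact_mod_cast (Real.rpow_natCast (j : ℝ) 2).symm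
      _ ≤ (j : ℝ) ^ B := Real.rpow_le_rpow_of_exponent_le hjr hB

/-- the bad numbers for the lengths of the question -/
lemma bad_sub {c : ℝ} (hc : 0 < c) : ∀ m, 1 ≤ m → 3 ≤ Nat.log 2 m →
    (N 5 (1 / 10) m ⌊(Real.logb 2 m) ^ 2⌋₊ : ℝ) < c * Real.log m → m ∈ E5 c (fun j => j ^ 2) := by
  intro m hm hj h
  obtain ⟨h1, h2⟩ := len_bound hm hj
  have h3 : (N 5 (1 / 10) m ((Nat.log 2 m) ^ 2) : ℝ) ≤ N 5 (1 / 10) m ⌊(Real.logb 2 m) ^ 2⌋₊ := by
    exact_mod_cast N_mono 5 (1 / 10) m h1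
  change (FivePrimeFactors.N m ((Nat.log 2 m) ^ 2) : ℝ) <
    c * (((Nat.log 2 m) ^ 2 : ℕ) : ℝ) / (Nat.log 2 m : ℝ)
  rw [N5]
  have hj0 : (0 : ℝ) < Nat.log 2 m := by exact_mod_cast (by omega : 0 < Nat.log 2 m)
  have e : c * (((Nat.log 2 m) ^ 2 : ℕ) : ℝ) / (Nat.log 2 m : ℝ) = c * Nat.log 2 m := by
    push_cast
    field_simp
  rw [e]
  have h4 : c * Real.log m ≤ c * Nat.log 2 m := mul_le_mul_of_nonneg_left h2 hc.le
  linarith

lemma good_sub {c : ℝ} (hc : 0 < c) : ∀ m, 1 ≤ m → 3 ≤ Nat.log 2 m → m ∈ E3 c (fun j => j ^ 2) →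
    c * Real.log m ≤ (N 3 (9 / 50) m ⌊(Real.logb 2 m) ^ 2⌋₊ : ℝ) := by
  intro m hm hj h
  obtain ⟨h1, h2⟩ := len_bound hm hj
  have h3 : (N 3 (9 / 50) m ((Nat.log 2 m) ^ 2) : ℝ) ≤ N 3 (9 / 50) m ⌊(Real.logb 2 m) ^ 2⌋₊ := by
    exact_mod_cast N_mono 3 (9 / 50) m h1
  have h' : c * (((Nat.log 2 m) ^ 2 : ℕ) : ℝ) / (Nat.log 2 m : ℝ) ≤
    (ThreePrimeFactors.N m ((Nat.log 2 m) ^ 2) : ℝ) := h
  rw [N3] at h'
  have hj0 : (0 : ℝ) < Nat.log 2 m := by exact_mod_cast (by omega : 0 < Nat.log 2 m)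
  have e : c * (((Nat.log 2 m) ^ 2 : ℕ) : ℝ) / (Nat.log 2 m : ℝ) = c * Nat.log 2 m := by
    push_cast
    field_simp
  rw [e] at h'
  have h4 : c * Real.log m ≤ c * Nat.log 2 m := mul_le_mul_of_nonneg_left h2 hc.le
  linarith

/-- **Three and five prime factors along almost all sequences.** -/
theorem result :
    -- at most five prime factors, for almost all `n`
    (∃ c : ℝ, 0 < c ∧
      -- other lengths
      (∀ ε B : ℝ, 0 < ε → ∃ K : ℝ, ∀ a b : ℕ → ℝ, Admissible a b → ∀ L : ℕ → ℕ, Lengths K B L →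
        ∀ᵐ α : ℝ, 1 < α → Rare a b α ε
          (fun m => (N 5 (1 / 10) m (L (Nat.log 2 m)) : ℝ) < c * L (Nat.log 2 m) / Nat.log 2 m)) ∧
      -- the lengths of the question
      ∀ a b : ℕ → ℝ, Admissible a b → ∀ᵐ α : ℝ, 1 < α → ∀ ε : ℝ, 0 < ε → Rare a b α ε
        (fun m => (N 5 (1 / 10) m ⌊(Real.logb 2 m) ^ 2⌋₊ : ℝ) < c * Real.log m)) ∧
    -- at most three prime factors, for a positive proportion of the `n`; other lengths
    (∀ x B : ℝ, 0 < x → ∃ c δ : ℝ, 0 < c ∧ 0 < δ ∧ ∀ a b : ℕ → ℝ, Admissible a b →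
      ∀ L : ℕ → ℕ, Lengths x B L → ∀ᵐ α : ℝ, 1 < α → Frequent a b α δ
        (fun m => c * L (Nat.log 2 m) / Nat.log 2 m ≤ (N 3 (9 / 50) m (L (Nat.log 2 m)) : ℝ))) ∧
    -- the lengths of the question
    ∃ c δ : ℝ, 0 < c ∧ 0 < δ ∧ ∀ a b : ℕ → ℝ, Admissible a b → ∀ᵐ α : ℝ, 1 < α → Frequent a b α δ
      (fun m => c * Real.log m ≤ (N 3 (9 / 50) m ⌊(Real.logb 2 m) ^ 2⌋₊ : ℝ)) := by
  classical
  refine ⟨?_, ?_, ?_⟩
  · obtain ⟨c, hc, H⟩ := five
    refine ⟨c, hc, ?_, ?_⟩
    · intro ε B hε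
      obtain ⟨K, hK⟩ := H (ε / 2) B (by positivity)
      refine ⟨K, fun a b hab L hL => ?_⟩
      have hE := hK L hL
      filter_upwards [ae_nat2 (E := E5 c L) hab.one_le_left hab.one_le_right hab.mono hab.tendsto
        hab.bounded] with α hα hα1
      have h := (hα hα1).1 (ε / 2) (by positivity) hE (ε / 2) (by positivity)
      rw [add_halves] at h
      unfold Rare
      filter_upwards [h] with M hM
      have e : ∀ m, (m ∈ E5 c L) =
          ((N 5 (1 / 10) m (L (Nat.log 2 m)) : ℝ) < c * L (Nat.log 2 m) / Nat.log 2 m) := by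
        intro m
        rw [← N5]
        rfl
      simp only [e] at hM
      exact hM
    · intro a b hab
      filter_upwards [ae_nat2 (E := {m : ℕ | (N 5 (1 / 10) m ⌊(Real.logb 2 m) ^ 2⌋₊ : ℝ) < c * Real.log m})
        hab.one_le_left hab.one_le_right hab.mono hab.tendsto hab.bounded] with α hα hα1 ε hε
      obtain ⟨K, hK⟩ := H (ε / 2) 2 (by positivity)
      have hE := hK (fun j => j ^ 2) (sq_lengths K 2 le_rfl)
      have hE' : DUp (ε / 2) {m : ℕ | (N 5 (1 / 10) m ⌊(Real.logb 2 m) ^ 2⌋₊ : ℝ) < c * Real.log m} :=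
        DUp_mono hE 3 (fun m hm hj h => bad_sub hc m hm hj h)
      have h := (hα hα1).1 (ε / 2) (by positivity) hE' (ε / 2) (by positivity)
      rw [add_halves] at h
      exact h
  · intro x B hx
    obtain ⟨c, hc, hc1, H⟩ := three x B hx
    refine ⟨c, c / 2, hc, by positivity, fun a b hab L hL => ?_⟩
    have hE := H L hL
    filter_upwards [ae_nat2 (E := E3 c L) hab.one_le_left hab.one_le_right hab.mono hab.tendsto
      hab.bounded] with α hα hα1
    have h := (hα hα1).2 c hc1 hE (c / 2) (by positivity)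
    rw [show c - c / 2 = c / 2 by ring] at h
    unfold Frequent
    filter_upwards [h] with M hM
    have e : ∀ m, (m ∈ E3 c L) =
        (c * L (Nat.log 2 m) / Nat.log 2 m ≤ (N 3 (9 / 50) m (L (Nat.log 2 m)) : ℝ)) := by
      intro m
      rw [← N3]
      rfl
    simp only [e] at hM
    exact hM
  · obtain ⟨c, hc, hc1, H⟩ := three 1 2 one_pos
    have hE := H (fun j => j ^ 2) (sq_lengths 1 2 le_rfl)
    refine ⟨c, c / 2, hc, by positivity, fun a b hab => ?_⟩
    have hE' : DUp (1 - c) ({m : ℕ | c * Real.log m ≤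
        (N 3 (9 / 50) m ⌊(Real.logb 2 m) ^ 2⌋₊ : ℝ)})ᶜ := by
      refine DUp_mono hE 3 (fun m hm hj h => ?_)
      intro hmem
      exact h (good_sub hc m hm hj hmem)
    filter_upwards [ae_nat2 (E := {m : ℕ | c * Real.log m ≤
      (N 3 (9 / 50) m ⌊(Real.logb 2 m) ^ 2⌋₊ : ℝ)}) hab.one_le_left hab.one_le_right hab.mono hab.tendsto
      hab.bounded] with α hα hα1
    have h := (hα hα1).2 c hc1 hE' (c / 2) (by positivity)
    rw [show c - c / 2 = c / 2 by ring] at h
    exact h

end Pool.Agent.Results.MP_73869e_nt.FewFactorsAlongPowers
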